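import Pool.Agent.H369.SM.Stm

/-! SM10: limit of the condition along the diagonal. -/

set_option autoImplicit false

namespace Pool.Agent.H278.SM

open Pool.Agent.TH549.CK Pool.Agent.H369.SM TensorProduct

theorem coeff_term {S : Type} [Field S] {f g : LaurentSeries S} {n : ℕ}
    (hf : ∀ l : ℤ, l < -(n : ℤ) → f.coeff l = 0) (hg : ∀ l : ℤ, l < -(n : ℤ) → g.coeff l = 0)
    (c : S) (j : ℕ) (k : ℤ) :
    (HahnSeries.C c * LaurentSeries.hasseDeriv S j f * g).coeff k =
      ∑ i ∈ Finset.Icc (-((n : ℤ) + j)) (k + n),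
        c * ((Ring.choose (i + j) j : ℤ) • f.coeff (i + j)) * g.coeff (k - i) := by
  have h1 : ∀ l : ℤ, l < -((n : ℤ) + j) → (LaurentSeries.hasseDeriv S j f).coeff l = 0 := by
    intro l hl
    rw [LaurentSeries.hasseDeriv_coeff, hf (l + j) (by omega), smul_zero]
  rw [mul_assoc, HahnSeries.C_mul_eq_smul, HahnSeries.coeff_smul,
    P5.coeff_mul_bd h1 hg, smul_eq_mul, Finset.mul_sum]
  refine Finset.sum_congr rfl fun i _ => ?_
  rw [LaurentSeries.hasseDeriv_coeff, mul_assoc]

theorem fv : S_FV := by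
  intro F 𝕂 P _ _ _ C m N K _ _ _ r e E hE o γ hG j hj
  -- a common bound of the poles
  have hbd : ∃ n : ℕ, ∀ x, Bd C N n (e x : PowerSeries 𝕂) := by
    choose n hn using fun x => (mem_MB.1 (e x).2).2
    exact ⟨∑ x, n x, fun x => (hn x).mono (Finset.single_le_sum (fun _ _ => Nat.zero_le _)
      (Finset.mem_univ x))⟩
  obtain ⟨n, hn⟩ := hbd
  have hc : ∀ x (l : ℤ), l < -(n : ℤ) → cinf C N (e x : PowerSeries 𝕂) l = 0 := by
    intro x l hl
    ext t
    unfold H369.SM.cinf
    rw [PowerSeries.coeff_mk, hn x t l hl, map_zero]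
  have h0 := FV_of_mem hG j hj
  have h1 : ∀ x y, sj (RK K C N) j (algebraMap (PowerSeries F) K (o x y) • (E x ⊗ₜ[K] E y)) =
      HahnSeries.C (algebraMap (PowerSeries F) K (o x y)) *
        LaurentSeries.hasseDeriv K j (E x : LaurentSeries K) * (E y : LaurentSeries K) := by
    intro x y
    rw [map_smul, sj_tmul, ← HahnSeries.C_mul_eq_smul, mul_assoc]
  simp only [map_sum, h1] at h0
  ext k
  -- the coefficient as an element of `F[[t]]`
  have h2 : algebraMap (PowerSeries F) K (∑ x, ∑ y, ∑ i ∈ Finset.Icc (-((n : ℤ) + j)) (k + n),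
      o x y * ((Ring.choose (i + j) j : ℤ) • cinf C N (e x : PowerSeries 𝕂) (i + j)) *
        cinf C N (e y : PowerSeries 𝕂) (k - i)) = 0 := by
    have h3 := congrArg (fun z : LaurentSeries K => z.coeff k) h0
    simp only [HahnSeries.coeff_sum, HahnSeries.coeff_zero] at h3
    rw [← h3]
    simp only [map_sum]
    refine Finset.sum_congr rfl fun x _ => Finset.sum_congr rfl fun y _ => ?_
    rw [coeff_term (n := n) (fun l hl => by rw [hE, hc x l hl, map_zero])
      (fun l hl => by rw [hE, hc y l hl, map_zero])]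
    refine Finset.sum_congr rfl fun i _ => ?_
    rw [map_mul, map_mul, map_zsmul, hE, hE]
  have h4 := (map_eq_zero_iff _ (IsFractionRing.injective (PowerSeries F) K)).1 h2
  have h5 := congrArg (PowerSeries.coeff 0) h4
  have hc0 : ∀ (f : PowerSeries 𝕂) (l : ℤ), PowerSeries.coeff 0 (cinf C N f l) =
      (C.E N.o (PowerSeries.coeff 0 f)).coeff l := fun f l => by
    unfold H369.SM.cinf
    rw [PowerSeries.coeff_mk]
  have hmul : ∀ a b : PowerSeries F, PowerSeries.coeff 0 (a * b) =
      PowerSeries.coeff 0 a * PowerSeries.coeff 0 b := fun a b => by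
    simp only [PowerSeries.coeff_zero_eq_constantCoeff, map_mul]
  simp only [map_sum, hmul, map_zsmul, hc0, map_zero] at h5
  rw [HahnSeries.coeff_sum, HahnSeries.coeff_zero, ← h5]
  refine Finset.sum_congr rfl fun x _ => ?_
  rw [HahnSeries.coeff_sum]
  refine Finset.sum_congr rfl fun y _ => ?_
  rw [coeff_term (n := n) (fun l hl => hn x 0 l hl) (fun l hl => hn y 0 l hl)]

end Pool.Agent.H278.SM
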